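import Pool.Agent.Helper25.EV.LLdef

/-!
# The labelled processes

`labD P` is the process without input, `labY P y` is the combined process for the input `y`.
-/

set_option autoImplicit false

namespace Pool.Agent.Helper25.EV

open Ordinal

universe u v

/-- the components of the local process are primitive recursive -/
structure LPr.Prim (P : LPr) : Prop where
  ini : Primrec P.ini
  nb : Primrec P.nb
  ev : Primrec₂ P.ev
  rs : Primrec P.rs

/-- the history structure below `β`, from the labels and numberings of the earlier stages -/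
def mkH (β : Ordinal.{0})
    (st : (γ : Ordinal.{0}) → γ < β → Set ℕ × (Ordinal.{0} → ℕ → Prop)) : Hs Ordinal.{0} where
  D := fun γ => γ < β
  lt := fun γ δ => γ < δ
  lab := fun γ => {m | ∃ h : γ < β, m ∈ (st γ h).1}
  num := fun γ a k => ∃ h : γ < β, (st γ h).2 a k

/-- label and numbering of all stages, without input -/
noncomputable def stD (P : LPr) : Ordinal.{0} → Set ℕ × (Ordinal.{0} → ℕ → Prop) :=
  WellFounded.fix Ordinal.lt_wf fun β ih =>
    ((mkH β ih).nlab P rlL (mkH β ih).newL, (mkH β ih).nD)

/-- label and numbering of all stages, for the input `y` -/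
noncomputable def stY (P : LPr) (y : Real2) : Ordinal.{0} → Set ℕ × (Ordinal.{0} → ℕ → Prop) :=
  WellFounded.fix Ordinal.lt_wf fun β ih =>
    ((mkH β ih).clab P rlL (mkH β ih).newL y, (mkH β ih).nD)

/-- the labels without input -/
noncomputable def labD (P : LPr) (β : Ordinal.{0}) : Set ℕ := (stD P β).1

/-- the canonical numbers: `numD P β a k`: `a` has the number `k` in the canonical code of `β` -/
noncomputable def numD (P : LPr) (β a : Ordinal.{0}) (k : ℕ) : Prop := (stD P β).2 a k

/-- the labels for the input `y` -/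
noncomputable def labY (P : LPr) (y : Real2) (β : Ordinal.{0}) : Set ℕ := (stY P y β).1

noncomputable def numY (P : LPr) (y : Real2) (β a : Ordinal.{0}) (k : ℕ) : Prop :=
  (stY P y β).2 a k

/-- the history below `β` without input -/
noncomputable def HD (P : LPr) (β : Ordinal.{0}) : Hs Ordinal.{0} where
  D := fun γ => γ < β
  lt := fun γ δ => γ < δ
  lab := labD P
  num := numD P

/-- the history below `β` for the input `y` -/
noncomputable def HY (P : LPr) (y : Real2) (β : Ordinal.{0}) : Hs Ordinal.{0} where
  D := fun γ => γ < β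
  lt := fun γ δ => γ < δ
  lab := labY P y
  num := numY P y

/-- the `d`-cells which fire at `β` -/
noncomputable def FD (P : LPr) (β : Ordinal.{0}) : Set ℕ := {d | Nat.pair 0 (2 * d) ∈ labD P β}

/-- the `y`-cells which fire at `β` -/
noncomputable def FY (P : LPr) (y : Real2) (β : Ordinal.{0}) : Set ℕ :=
  {n | Nat.pair 0 (2 * n + 1) ∈ labY P y β}

/-- the cells of the combined process for the input `y` which fire at `β` -/
noncomputable def FC (P : LPr) (y : Real2) (β : Ordinal.{0}) : Set ℕ := fires (labY P y β)

/-! ## Isomorphisms of history structures -/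

/-- `R` is an isomorphism of (the domains of) `H` and `H'`, where only the numbers `m` with `W m` are
considered in the labels -/
structure HIso {A : Type u} {B : Type v} (H : Hs A) (H' : Hs B) (R : A → B → Prop)
    (W : ℕ → Prop) : Prop where
  dom : ∀ a b, R a b → H.D a ∧ H'.D b
  tot1 : ∀ a, H.D a → ∃ b, R a b
  tot2 : ∀ b, H'.D b → ∃ a, R a b
  eq : ∀ a b a' b', R a b → R a' b' → (a = a' ↔ b = b')
  lt : ∀ a b a' b', R a b → R a' b' → (H.lt a a' ↔ H'.lt b b')
  lab : ∀ a b m, R a b → W m → (m ∈ H.lab a ↔ m ∈ H'.lab b)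
  num : ∀ a b a' b' k, R a b → R a' b' → (H.num a a' k ↔ H'.num b b' k)
  num1 : ∀ a a' k, H.D a → H.num a a' k → H.D a'
  num2 : ∀ b b' k, H'.D b → H'.num b b' k → H'.D b'

/-- the numbers of the labels which do not depend on the input -/
def Wd (m : ℕ) : Prop := (¬ ∃ n, m = Nat.pair 0 (2 * n + 1)) ∧ (Nat.unpair m).1 ≠ 9

/-! ## Local processes on their own -/

/-- the bits which are on in the local process `P` with the input `y` at the stage `α` -/
noncomputable def loc (P : LPr) (y : Real2) (α : Ordinal.{0}) : Set ℕ :=
  Ordinal.limitRecOn α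
    {n | (∃ k, P.ini n = Sum.inl k ∧ y k = true) ∨ P.ini n = Sum.inr true}
    (fun _ X => {n | ∃ v : List Bool, v.length = (P.nb n).length ∧
      (∀ j < v.length, v.getD j false = true ↔ (P.nb n).getD j 0 ∈ X) ∧ P.ev n v = true})
    fun l _ f => {n | P.rs n = some true ∨ (P.rs n = none ∧
      ∀ β < l, ∃ (γ : Ordinal.{0}) (hg : γ < l), β ≤ γ ∧ n ∈ f γ hg)}

end Pool.Agent.Helper25.EV
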