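import Pool.Agent.Helper25.EV.Proc
import Pool.Agent.Helper24.AR.I6

/-!
# Chapter AR: invariance
-/

set_option autoImplicit false

namespace Pool.Agent.Helper25.EV

universe u v

/-- CHAPTER AR, part 1: the label without input is invariant under isomorphisms and does not depend
on the cells of the input. -/
theorem invD {A : Type u} {B : Type v} {H : Hs A} {H' : Hs B} {R : A → B → Prop}
    (h : HIso H H' R Wd) (P : LPr) :
    H.nlab P rlL H.newL = H'.nlab P rlL H'.newL ∧ ∀ a b k, R a b → (H.nD a k ↔ H'.nD b k) :=
  Pool.Agent.Helper24.AR.invD' h P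

/-- CHAPTER AR, part 2: the complete label is invariant under isomorphisms. -/
theorem invY {A : Type u} {B : Type v} {H : Hs A} {H' : Hs B} {R : A → B → Prop}
    (h : HIso H H' R fun _ => True) (P : LPr) (y : ℕ → Bool) :
    H.clab P rlL H.newL y = H'.clab P rlL H'.newL y :=
  Pool.Agent.Helper24.AR.invY' h P y

end Pool.Agent.Helper25.EV
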