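import Pool.Agent.Helper25.EV.ARinv
import Pool.Agent.Helper24.AR.Fin

/-!
# Chapter AR: main theorem
-/

set_option autoImplicit false

namespace Pool.Agent.Helper25.EV

/-- CHAPTER AR, part 3: the label is computed from every code of the history. -/
theorem AR (P : LPr) (hP : P.Prim) : ∃ nl : List Instr, Computes nl (labY P) :=
  Pool.Agent.Helper24.AR.AR' P hP

end Pool.Agent.Helper25.EV
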