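import Mathlib

/-!
# Infinite time Turing machines, eventual semidecidability and the constructible hierarchy

Statement level definitions for MP_f84cd7_lc.
-/

set_option autoImplicit false

namespace Pool.Agent.Helper25.EV

open Ordinal

/-- the reals: elements of Cantor space -/
abbrev Real2 : Type := ℕ → Bool

/-! ## Infinite time Turing machines (Hamkins and Lewis) -/

/-- A program: finitely many states `0, ..., n + 1`, where `0` is the start state and `1` is the
limit state; the halt state is `none`.  In a state which is not the halt state the machine reads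
the three cells under the head (input, scratch and output tape), writes three bits, moves the head
(`true` is right, `false` is left) and changes the state. -/
structure Prog where
  n : ℕ
  tr : Fin (n + 2) → Bool × Bool × Bool →
    (Bool × Bool × Bool) × Bool × Option (Fin (n + 2))

/-- A snapshot of a machine with three tapes and one head. -/
structure Snap (p : Prog) where
  st : Option (Fin (p.n + 2))
  hd : ℕ
  tin : ℕ → Bool
  tsc : ℕ → Bool
  tout : ℕ → Bool

/-- The initial snapshot with input `y`. -/
def initSnap (p : Prog) (y : Real2) : Snap p :=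
  ⟨some 0, 0, y, fun _ => false, fun _ => false⟩

/-- One step of the computation; a halted machine does not change. On the leftmost cell a move to
the left leaves the head where it is. -/
def stepSnap (p : Prog) (s : Snap p) : Snap p :=
  match s.st with
  | none => s
  | some q =>
    let r := p.tr q (s.tin s.hd, s.tsc s.hd, s.tout s.hd)
    ⟨r.2.2, if r.2.1 then s.hd + 1 else s.hd - 1,
      Function.update s.tin s.hd r.1.1, Function.update s.tsc s.hd r.1.2.1,
      Function.update s.tout s.hd r.1.2.2⟩

open Classical in
/-- The snapshot at a limit stage, from the earlier snapshots: if the machine has halted before,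
then it stays as it is; otherwise the state is the limit state, the head is on the leftmost cell
and every cell shows the limit superior of the earlier values. -/
noncomputable def limSnap (p : Prog) (l : Ordinal.{0}) (f : (β : Ordinal.{0}) → β < l → Snap p) :
    Snap p :=
  if h : ∃ (β : Ordinal.{0}) (hb : β < l), (f β hb).st = none then f h.choose h.choose_spec.choose
  else ⟨some 1, 0,
    fun k => decide (∀ β < l, ∃ (γ : Ordinal.{0}) (hg : γ < l), β ≤ γ ∧ (f γ hg).tin k = true),
    fun k => decide (∀ β < l, ∃ (γ : Ordinal.{0}) (hg : γ < l), β ≤ γ ∧ (f γ hg).tsc k = true),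
    fun k => decide (∀ β < l, ∃ (γ : Ordinal.{0}) (hg : γ < l), β ≤ γ ∧ (f γ hg).tout k = true)⟩

/-- The run of `p` on input `y`: the snapshot at every ordinal stage. -/
noncomputable def run (p : Prog) (y : Real2) (α : Ordinal.{0}) : Snap p :=
  Ordinal.limitRecOn α (initSnap p y) (fun _ s => stepSnap p s) (fun l _ f => limSnap p l f)

/-- The program `p` halts on input `y` with `r` on the output tape. -/
def HaltsWith (p : Prog) (y r : Real2) : Prop :=
  ∃ α, (run p y α).st = none ∧ (run p y α).tout = r

/-- `A` is eventually semidecidable: for some program, exactly on the inputs in `A` the output cell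
(the first cell of the output tape) holds `1` at all stages from some stage on. -/
def EventuallySemidecidable (A : Set Real2) : Prop :=
  ∃ p : Prog, ∀ y : Real2, y ∈ A ↔ ∃ α, ∀ β, α ≤ β → (run p y β).tout 0 = true

/-- The real `r` codes a well-order of type `α`: the relation `r (⟨i, j⟩) = 1` is a (reflexive)
well-order of its field `{i | r (⟨i, i⟩) = 1}` of type `α`. -/
def CodesOrd (r : Real2) (α : Ordinal.{0}) : Prop :=
  ∃ f : ℕ → Ordinal.{0},
    Set.BijOn f {i | r (Nat.pair i i) = true} (Set.Iio α) ∧
    ∀ i j, r (Nat.pair i j) = true ↔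
      r (Nat.pair i i) = true ∧ r (Nat.pair j j) = true ∧ f i ≤ f j

/-- The ordinal `α` is `x`-writable. -/
def Writable (x : Real2) (α : Ordinal.{0}) : Prop :=
  ∃ (p : Prog) (r : Real2), HaltsWith p x r ∧ CodesOrd r α

/-- `λ^x`, the supremum of the `x`-writable ordinals. -/
noncomputable def lam (x : Real2) : Ordinal.{0} := sSup {α | Writable x α}

/-! ## The constructible hierarchy -/

/-- Formulas of the language of set theory. -/
inductive Fml : Type
  | mem (i j : ℕ) : Fml
  | eq (i j : ℕ) : Fml
  | neg (φ : Fml) : Fml
  | and (φ ψ : Fml) : Fml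
  | ex (i : ℕ) (φ : Fml) : Fml

/-- Truth in the structure `(A, ∈)` under an assignment `s`. -/
def Sat (A : Set ZFSet.{0}) : Fml → (ℕ → ZFSet.{0}) → Prop
  | .mem i j, s => s i ∈ s j
  | .eq i j, s => s i = s j
  | .neg φ, s => ¬ Sat A φ s
  | .and φ ψ, s => Sat A φ s ∧ Sat A ψ s
  | .ex i φ, s => ∃ a ∈ A, Sat A φ (Function.update s i a)

/-- The free variables of a formula. -/
def Fml.fv : Fml → Set ℕ
  | .mem i j => {i, j}
  | .eq i j => {i, j}
  | .neg φ => φ.fv
  | .and φ ψ => φ.fv ∪ ψ.fv
  | .ex i φ => φ.fv \ {i}

/-- `Def(A)`: the sets `X ⊆ A` which are definable over `(A, ∈)` by a formula with parameters from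
`A`: `X = {a ∈ A | (A, ∈) ⊨ φ(a, parameters)}`, where the variable `0` stands for `a`. -/
def DefSet (A : Set ZFSet.{0}) : Set ZFSet.{0} :=
  {X | ∃ (φ : Fml) (s : ℕ → ZFSet.{0}), (∀ i ∈ φ.fv, i ≠ 0 → s i ∈ A) ∧
    ∀ a, a ∈ X ↔ a ∈ A ∧ Sat A φ (Function.update s 0 a)}

/-- The constructible hierarchy: `L_0 = ∅`, `L_{α+1} = Def(L_α)`, unions at limits. -/
noncomputable def Lh (α : Ordinal.{0}) : Set ZFSet.{0} :=
  Ordinal.limitRecOn α ∅ (fun _ A => DefSet A) fun l _ f => {X | ∃ (β : Ordinal) (h : β < l), X ∈ f β h}

/-- The finite von Neumann ordinals. -/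
noncomputable def vN : ℕ → ZFSet.{0}
  | 0 => ∅
  | n + 1 => insert (vN n) (vN n)

/-- The real `x`, as a set of natural numbers, is an element of `A`. -/
def RealIn (x : Real2) (A : Set ZFSet.{0}) : Prop :=
  ∃ X ∈ A, ∀ z, z ∈ X ↔ ∃ n, x n = true ∧ z = vN n

end Pool.Agent.Helper25.EV
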