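import Pool.Agent.Helper25.EV.ARinv

/-!
# Basic lemmas on the labelled processes
-/

set_option autoImplicit false

namespace Pool.Agent.Helper25.EV

open Ordinal

theorem stD_eq (P : LPr) (β : Ordinal.{0}) :
    stD P β = ((mkH β fun γ _ => stD P γ).nlab P rlL (mkH β fun γ _ => stD P γ).newL,
      (mkH β fun γ _ => stD P γ).nD) := by
  unfold stD
  rw [WellFounded.fix_eq]

theorem stY_eq (P : LPr) (y : Real2) (β : Ordinal.{0}) :
    stY P y β = ((mkH β fun γ _ => stY P y γ).clab P rlL (mkH β fun γ _ => stY P y γ).newL y,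
      (mkH β fun γ _ => stY P y γ).nD) := by
  unfold stY
  rw [WellFounded.fix_eq]

/-- canonical numbers only belong to earlier stages -/
theorem nD_dom {H : Hs Ordinal.{0}} (h : ∀ a a' k, H.D a → H.num a a' k → H.D a')
    (a : Ordinal.{0}) (k : ℕ) (hn : H.nD a k) : H.D a := by
  rcases hn with ⟨m, hm, ⟨rfl, _⟩ | ⟨_, k', hk, _⟩⟩ | ⟨_, hD, _⟩
  · exact hm.1
  · exact h _ _ _ hm.1 hk
  · exact hD

theorem numD_lt (P : LPr) : ∀ (β a : Ordinal.{0}) (k : ℕ), numD P β a k → a < β := by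
  intro β
  induction β using WellFounded.induction Ordinal.lt_wf with
  | _ β ih =>
    intro a k h
    have h1 : (mkH β fun γ _ => stD P γ).nD a k := by
      have : numD P β a k = (stD P β).2 a k := rfl
      rw [this, stD_eq] at h
      exact h
    refine nD_dom ?_ a k h1
    rintro b a' k' hb ⟨_, hk⟩
    exact lt_trans (ih b hb a' k' hk) hb

theorem isoD (P : LPr) (β : Ordinal.{0}) :
    HIso (mkH β fun γ _ => stD P γ) (HD P β) (fun a b => a = b ∧ a < β) Wd where
  dom := by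
    rintro a b ⟨rfl, h⟩
    exact ⟨h, h⟩
  tot1 := fun a h => ⟨a, rfl, h⟩
  tot2 := fun a h => ⟨a, rfl, h⟩
  eq := by
    rintro a b a' b' ⟨rfl, _⟩ ⟨rfl, _⟩
    exact Iff.rfl
  lt := by
    rintro a b a' b' ⟨rfl, _⟩ ⟨rfl, _⟩
    exact Iff.rfl
  lab := by
    rintro a b m ⟨rfl, h⟩ _
    exact ⟨fun h => h.choose_spec, fun h' => ⟨h, h'⟩⟩
  num := by
    rintro a b a' b' k ⟨rfl, h⟩ ⟨rfl, _⟩
    exact ⟨fun h => h.choose_spec, fun h' => ⟨h, h'⟩⟩
  num1 := by
    rintro a a' k h ⟨_, h'⟩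
    exact lt_trans (numD_lt P a a' k h') h
  num2 := by
    rintro a a' k h h'
    exact lt_trans (numD_lt P a a' k h') h

theorem labD_eq (P : LPr) (β : Ordinal.{0}) :
    labD P β = (HD P β).nlab P rlL (HD P β).newL := by
  unfold labD
  rw [stD_eq]
  exact (invD (isoD P β) P).1

theorem numD_eq (P : LPr) (β a : Ordinal.{0}) (k : ℕ) : numD P β a k ↔ (HD P β).nD a k := by
  have h0 : numD P β a k ↔ (mkH β fun γ _ => stD P γ).nD a k := by
    have : numD P β a k = (stD P β).2 a k := rfl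
    rw [this, stD_eq]
  constructor
  · intro h
    have h1 := numD_lt P β a k h
    exact ((invD (isoD P β) P).2 a a k ⟨rfl, h1⟩).mp (h0.mp h)
  · intro h
    have h1 : a < β := nD_dom (H := HD P β) (fun b a' k' hb hk =>
      lt_trans (numD_lt P b a' k' hk) hb) a k h
    exact h0.mpr (((invD (isoD P β) P).2 a a k ⟨rfl, h1⟩).mpr h)

theorem numY_lt (P : LPr) (y : Real2) :
    ∀ (β a : Ordinal.{0}) (k : ℕ), numY P y β a k → a < β := by
  intro β
  induction β using WellFounded.induction Ordinal.lt_wf with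
  | _ β ih =>
    intro a k h
    have h1 : (mkH β fun γ _ => stY P y γ).nD a k := by
      have : numY P y β a k = (stY P y β).2 a k := rfl
      rw [this, stY_eq] at h
      exact h
    refine nD_dom ?_ a k h1
    rintro b a' k' hb ⟨_, hk⟩
    exact lt_trans (ih b hb a' k' hk) hb

theorem isoY (P : LPr) (y : Real2) (β : Ordinal.{0}) (W : ℕ → Prop) :
    HIso (mkH β fun γ _ => stY P y γ) (HY P y β) (fun a b => a = b ∧ a < β) W where
  dom := by
    rintro a b ⟨rfl, h⟩
    exact ⟨h, h⟩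
  tot1 := fun a h => ⟨a, rfl, h⟩
  tot2 := fun a h => ⟨a, rfl, h⟩
  eq := by
    rintro a b a' b' ⟨rfl, _⟩ ⟨rfl, _⟩
    exact Iff.rfl
  lt := by
    rintro a b a' b' ⟨rfl, _⟩ ⟨rfl, _⟩
    exact Iff.rfl
  lab := by
    rintro a b m ⟨rfl, h⟩ _
    exact ⟨fun h => h.choose_spec, fun h' => ⟨h, h'⟩⟩
  num := by
    rintro a b a' b' k ⟨rfl, h⟩ ⟨rfl, _⟩
    exact ⟨fun h => h.choose_spec, fun h' => ⟨h, h'⟩⟩
  num1 := by
    rintro a a' k h ⟨_, h'⟩
    exact lt_trans (numY_lt P y a a' k h') h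
  num2 := by
    rintro a a' k h h'
    exact lt_trans (numY_lt P y a a' k h') h

theorem labY_eq (P : LPr) (y : Real2) (β : Ordinal.{0}) :
    labY P y β = (HY P y β).clab P rlL (HY P y β).newL y := by
  unfold labY
  rw [stY_eq]
  exact invY (isoY P y β _) P y

/-- the numbers with `Wd` in a complete label are those in the label without input -/
theorem clab_Wd {H : Hs Ordinal.{0}} (P : LPr) (y : Real2) (m : ℕ) (hm : Wd m) :
    m ∈ H.clab P rlL H.newL y ↔ m ∈ H.nlab P rlL H.newL := by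
  constructor
  · rintro (h | ⟨n, rfl, _⟩ | ⟨rfl, _⟩)
    · exact h
    · exact absurd ⟨n, rfl⟩ hm.1
    · exact absurd (by rw [Nat.unpair_pair]) hm.2
  · exact fun h => Or.inl h

theorem isoDY (P : LPr) (y : Real2) (β : Ordinal.{0})
    (ih : ∀ γ < β, (∀ m, Wd m → (m ∈ labY P y γ ↔ m ∈ labD P γ)) ∧
      ∀ a k, numY P y γ a k ↔ numD P γ a k) :
    HIso (mkH β fun γ _ => stY P y γ) (mkH β fun γ _ => stD P γ) (fun a b => a = b ∧ a < β) Wd where
  dom := by
    rintro a b ⟨rfl, h⟩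
    exact ⟨h, h⟩
  tot1 := fun a h => ⟨a, rfl, h⟩
  tot2 := fun a h => ⟨a, rfl, h⟩
  eq := by
    rintro a b a' b' ⟨rfl, _⟩ ⟨rfl, _⟩
    exact Iff.rfl
  lt := by
    rintro a b a' b' ⟨rfl, _⟩ ⟨rfl, _⟩
    exact Iff.rfl
  lab := by
    rintro a b m ⟨rfl, h⟩ hm
    exact ⟨fun h => ⟨h.choose, ((ih a h.choose).1 m hm).mp h.choose_spec⟩,
      fun h => ⟨h.choose, ((ih a h.choose).1 m hm).mpr h.choose_spec⟩⟩
  num := by
    rintro a b a' b' k ⟨rfl, h⟩ ⟨rfl, _⟩
    exact ⟨fun h => ⟨h.choose, ((ih a h.choose).2 a' k).mp h.choose_spec⟩,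
      fun h => ⟨h.choose, ((ih a h.choose).2 a' k).mpr h.choose_spec⟩⟩
  num1 := by
    rintro a a' k h ⟨_, h'⟩
    exact lt_trans (numY_lt P y a a' k h') h
  num2 := by
    rintro a a' k h ⟨_, h'⟩
    exact lt_trans (numD_lt P a a' k h') h

theorem labY_numY (P : LPr) (y : Real2) : ∀ β : Ordinal.{0},
    (∀ m, Wd m → (m ∈ labY P y β ↔ m ∈ labD P β)) ∧ ∀ a k, numY P y β a k ↔ numD P β a k := by
  intro β
  induction β using WellFounded.induction Ordinal.lt_wf with
  | _ β ih =>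
    have h1 := invD (isoDY P y β ih) P
    constructor
    · intro m hm
      have e1 : labY P y β =
          (mkH β fun γ _ => stY P y γ).clab P rlL (mkH β fun γ _ => stY P y γ).newL y := by
        unfold labY
        rw [stY_eq]
      have e2 : labD P β =
          (mkH β fun γ _ => stD P γ).nlab P rlL (mkH β fun γ _ => stD P γ).newL := by
        unfold labD
        rw [stD_eq]
      rw [e1, e2, clab_Wd P y m hm, h1.1]
    · intro a k
      have e1 : numY P y β a k ↔ (mkH β fun γ _ => stY P y γ).nD a k := by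
        have : numY P y β a k = (stY P y β).2 a k := rfl
        rw [this, stY_eq]
      have e2 : numD P β a k ↔ (mkH β fun γ _ => stD P γ).nD a k := by
        have : numD P β a k = (stD P β).2 a k := rfl
        rw [this, stD_eq]
      constructor
      · intro h
        exact e2.mpr ((h1.2 a a k ⟨rfl, numY_lt P y β a k h⟩).mp (e1.mp h))
      · intro h
        exact e1.mpr ((h1.2 a a k ⟨rfl, numD_lt P β a k h⟩).mpr (e2.mp h))

theorem labY_iff (P : LPr) (y : Real2) (β : Ordinal.{0}) (m : ℕ) (hm : Wd m) :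
    m ∈ labY P y β ↔ m ∈ labD P β := (labY_numY P y β).1 m hm

theorem numY_eq (P : LPr) (y : Real2) : numY P y = numD P := by
  funext β a k
  exact propext ((labY_numY P y β).2 a k)

theorem Wd_even (d : ℕ) : Wd (Nat.pair 0 (2 * d)) := by
  constructor
  · rintro ⟨n, hn⟩
    have := congrArg (fun m => (Nat.unpair m).2) hn
    simp only [Nat.unpair_pair] at this
    omega
  · simp [Nat.unpair_pair]

theorem Wd_tag (t m : ℕ) (h : t ≠ 0) (h' : t ≠ 9) : Wd (Nat.pair t m) := by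
  constructor
  · rintro ⟨n, hn⟩
    have := congrArg (fun m => (Nat.unpair m).1) hn
    simp only [Nat.unpair_pair] at this
    exact h this
  · simpa [Nat.unpair_pair] using h'

theorem even_FC (P : LPr) (y : Real2) (β : Ordinal.{0}) (d : ℕ) :
    2 * d ∈ FC P y β ↔ d ∈ FD P β := labY_iff P y β _ (Wd_even d)

theorem odd_FC (P : LPr) (y : Real2) (β : Ordinal.{0}) (n : ℕ) :
    2 * n + 1 ∈ FC P y β ↔ n ∈ FY P y β := Iff.rfl

theorem mem_FD (P : LPr) (β : Ordinal.{0}) (d : ℕ) : d ∈ FD P β ↔ (HD P β).nfD d := by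
  unfold FD
  rw [Set.mem_setOf_eq, labD_eq]
  constructor
  · rintro (⟨d', h, h'⟩ | ⟨p, h, _⟩ | ⟨x, σ, τ, h, _⟩ | ⟨x, k, n, σ, i, h, _⟩ |
      ⟨x, k, n, σ, i, h, _⟩ | ⟨η, a, x, σ, k, k', h, _⟩ | h)
    · have := congrArg (fun m => (Nat.unpair m).2) h
      simp only [Nat.unpair_pair] at this
      have e : d = d' := by omega
      rw [e]
      exact h'
    all_goals
      first
      | (have := congrArg (fun m => (Nat.unpair m).1) h
         simp [Nat.unpair_pair] at this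
         done)
      | skip
    rcases h with ⟨i, h, _⟩ | ⟨i, γ, k, i', h, _⟩ | ⟨i, n, h, _⟩ <;>
    · have := congrArg (fun m => (Nat.unpair m).1) h
      simp [Nat.unpair_pair] at this
  · intro h
    exact Or.inl ⟨d, rfl, h⟩

theorem labD_tag0 (P : LPr) (β : Ordinal.{0}) (n : ℕ) :
    Nat.pair 0 (2 * n + 1) ∉ labD P β := by
  rw [labD_eq]
  rintro (⟨d', h, h'⟩ | ⟨p, h, _⟩ | ⟨x, σ, τ, h, _⟩ | ⟨x, k, n, σ, i, h, _⟩ |
      ⟨x, k, n, σ, i, h, _⟩ | ⟨η, a, x, σ, k, k', h, _⟩ | h)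
  · have := congrArg (fun m => (Nat.unpair m).2) h
    simp only [Nat.unpair_pair] at this
    omega
  all_goals
    first
    | (have := congrArg (fun m => (Nat.unpair m).1) h
       simp [Nat.unpair_pair] at this
       done)
    | skip
  rcases h with ⟨i, h, _⟩ | ⟨i, γ, k, i', h, _⟩ | ⟨i, n, h, _⟩ <;>
  · have := congrArg (fun m => (Nat.unpair m).1) h
    simp [Nat.unpair_pair] at this

/-- the label without input of the combined history -/
theorem nlab_HY (P : LPr) (y : Real2) (β : Ordinal.{0}) :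
    (HY P y β).nlab P rlL (HY P y β).newL = labD P β := by
  rw [labD_eq]
  refine (invD (R := fun a b => a = b ∧ a < β) ?_ P).1
  refine ⟨?_, fun a h => ⟨a, rfl, h⟩, fun a h => ⟨a, rfl, h⟩, ?_, ?_, ?_, ?_, ?_, ?_⟩
  · rintro a b ⟨rfl, h⟩
    exact ⟨h, h⟩
  · rintro a b a' b' ⟨rfl, _⟩ ⟨rfl, _⟩
    exact Iff.rfl
  · rintro a b a' b' ⟨rfl, _⟩ ⟨rfl, _⟩
    exact Iff.rfl
  · rintro a b m ⟨rfl, h⟩ hm
    exact labY_iff P y a m hm
  · rintro a b a' b' k ⟨rfl, h⟩ ⟨rfl, _⟩
    show numY P y a a' k ↔ numD P a a' k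
    rw [numY_eq]
  · rintro a a' k h h'
    exact lt_trans (numY_lt P y a a' k h') h
  · rintro a a' k h h'
    exact lt_trans (numD_lt P a a' k h') h

theorem mem_FY (P : LPr) (y : Real2) (β : Ordinal.{0}) (n : ℕ) :
    n ∈ FY P y β ↔ (HY P y β).nY P y n := by
  unfold FY
  rw [Set.mem_setOf_eq, labY_eq]
  constructor
  · rintro (h | ⟨n', h, h'⟩ | ⟨h, _⟩)
    · rw [nlab_HY] at h
      exact absurd h (labD_tag0 P β n)
    · have := congrArg (fun m => (Nat.unpair m).2) h
      simp only [Nat.unpair_pair] at this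
      have e : n = n' := by omega
      rw [e]
      exact h'
    · have := congrArg (fun m => (Nat.unpair m).1) h
      simp [Nat.unpair_pair] at this
  · intro h
    exact Or.inr (Or.inl ⟨n, rfl, h⟩)

theorem alarm_iff (P : LPr) (y : Real2) (β : Ordinal.{0}) :
    Nat.pair 9 0 ∈ labY P y β ↔ (HY P y β).alarm y := by
  rw [labY_eq]
  constructor
  · rintro (h | ⟨n', h, h'⟩ | ⟨_, h⟩)
    · rw [nlab_HY, labD_eq] at h
      rcases h with ⟨d', h, h'⟩ | ⟨p, h, _⟩ | ⟨x, σ, τ, h, _⟩ | ⟨x, k, n, σ, i, h, _⟩ |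
        ⟨x, k, n, σ, i, h, _⟩ | ⟨η, a, x, σ, k, k', h, _⟩ | h
      all_goals
        first
        | (have := congrArg (fun m => (Nat.unpair m).1) h
           simp [Nat.unpair_pair] at this
           done)
        | skip
      rcases h with ⟨i, h, _⟩ | ⟨i, γ, k, i', h, _⟩ | ⟨i, n, h, _⟩ <;>
      · have := congrArg (fun m => (Nat.unpair m).1) h
        simp [Nat.unpair_pair] at this
    · have := congrArg (fun m => (Nat.unpair m).1) h
      simp [Nat.unpair_pair] at this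
    · exact h
  · intro h
    exact Or.inr (Or.inr ⟨rfl, h⟩)

end Pool.Agent.Helper25.EV
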