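import Pool.Agent.Helper25.EV.FT.PE

/-!
# Chapter FT: main theorem
-/

set_option autoImplicit false

namespace Pool.Agent.Helper25.EV

/-- CHAPTER FT. -/
theorem FT (P : LPr) : ∃ (x : Real2) (ζ Ξ : Ordinal.{0}),
    (∀ η δ, Loop (FD P) η δ → Ξ ≤ δ) ∧ Loop (FC P x) ζ Ξ ∧
    (∀ β, Pre (FC P x) β → Nat.pair 9 0 ∉ labY P x β) ∧
    (∀ y, y ≠ x → ∃ β, Pre (FC P y) β ∧ Nat.pair 9 0 ∈ labY P y β) ∧
    ∀ γ < Ξ, ∀ j, ¬ ∀ n, x n = true ↔ rlL (labD P γ) j n := by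
  obtain ⟨ζ, Ξ, h⟩ := FL_ex P
  obtain ⟨x, hx, hx'⟩ := real_ex h
  have hlx := loop_x h hx
  refine ⟨x, ζ, Ξ, h.first, hlx, ?_, ?_, ?_⟩
  · intro β hβ ha
    rw [alarm_iff] at ha
    exact no_alarm h hx (hβ ζ Ξ hlx) ha
  · intro y hy
    obtain ⟨m, e, h1, h2, τ, h3, k, h4, h5⟩ := hx' y hy
    have he : (GG P).evt ζ e.1 e.2 := by
      obtain ⟨e', _, _, h6, _⟩ := h2
      exact h6
    by_cases hd : dY P y ζ e.1
    · refine ⟨Ξ + 1, ?_, ?_⟩
      · intro η δ hl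
        have h6 := h.first η δ (Loop_FD hl)
        rcases h6.eq_or_lt with h7 | h7
        · subst h7
          have h8 := h.uniq η (Loop_FD hl)
          subst h8
          exact absurd (dY_mono P hd (le_of_lt h1)) (Loop_dY hl)
        · exact hl.lim2.add_one_lt h7
      · rw [alarm_iff]
        exact late_alarm h y
    · refine ⟨e.1, ?_, ?_⟩
      · intro η δ hl
        exact lt_of_lt_of_le h1 (h.first η δ (Loop_FD hl))
      · rw [alarm_iff, alarm_evt y (h.pre h1)]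
        exact ⟨ζ, e.2, he, hd, τ, h3, k, h4, h5⟩
  · intro γ hγ j
    obtain ⟨m, e, h1, h2, h3⟩ := prog_sup h (h.loop.lim2.add_one_lt hγ)
    obtain ⟨e', h4, h5⟩ := prog h (m + 1)
    have hx1 := hx (m + 1) e' h4 h5
    obtain ⟨e'', h6, h7⟩ := cur_step P (h.pre h4) h5
    have h8 : e'' = e := cur_fun P (h.pre (lt_trans h7.lt0 h4)) h6 h2
    subst h8
    have h9 : γ < e'.2.1 := by
      refine lt_trans ?_ (lt_trans h3 h7.lt1)
      exact Order.lt_add_one_iff.mpr le_rfl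
    exact Avoid P (h.GB le_rfl) h7.cnd (lt_trans h7.lt2 h4) hx1 h9 j

end Pool.Agent.Helper25.EV
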