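import Pool.Agent.Helper91.MP.Main

/-!
# Chapter MP: main theorem
-/

set_option autoImplicit false

namespace Pool.Agent.Helper25.EV

/-- CHAPTER MP: every macro program is compiled to an infinite time Turing machine. -/
theorem MP (M : Macro) (hM : M.ok) : ∃ p : Prog, Compiled M p :=
  Pool.Agent.Helper91.MP.MP_main M hM

end Pool.Agent.Helper25.EV
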