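import Pool.Agent.Helper25.EV.Proc
import Pool.Agent.Helper25.EV.MPmain
import Pool.Agent.Helper88.IT.Fin

/-!
# Chapter IT: main theorem (statement)
-/

set_option autoImplicit false

namespace Pool.Agent.Helper25.EV

/-- CHAPTER IT: a universal local process: where it loops, all writable ordinals have been passed. -/
theorem ITw : ∃ P : LPr, P.Prim ∧ ∀ (x : Real2) (ζ Ξ : Ordinal.{0}), Loop (loc P x) ζ Ξ →
    ∀ α, Writable x α → α < ζ := Pool.Agent.Helper88.IT.ITw'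

theorem IT : ∃ P : LPr, P.Prim ∧ ∀ (x : Real2) (ζ Ξ : Ordinal.{0}), Loop (loc P x) ζ Ξ →
    (∀ α, Writable x α → α < ζ) ∧ lam x ≤ ζ := by
  obtain ⟨P, hP, h⟩ := ITw
  exact ⟨P, hP, fun x ζ Ξ hl => ⟨h x ζ Ξ hl, csSup_le' fun α hα => le_of_lt (h x ζ Ξ hl α hα)⟩⟩

end Pool.Agent.Helper25.EV
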