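import Pool.Agent.Helper25.EV.Proc
import Pool.Agent.Helper25.EV.ARinv
import Pool.Agent.Helper81.LL.Num

/-!
# Chapter LL: main theorems
-/

set_option autoImplicit false

namespace Pool.Agent.Helper25.EV

/-- CHAPTER LL, part 1. -/
theorem Lh_mono {α β : Ordinal.{0}} (h : α ≤ β) : Lh α ⊆ Lh β :=
  Pool.Agent.Helper81.LL.Lh_mono' h

/-- CHAPTER LL, part 2: before the end of the first loop, every real in `L_β` is listed in the label
of a stage below `β`. -/
theorem LL (P : LPr) (β : Ordinal.{0}) (hβ : ∀ η δ, Loop (FD P) η δ → β < δ) (x : Real2)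
    (hx : RealIn x (Lh β)) : ∃ γ < β, ∃ j, ∀ n, x n = true ↔ rlL (labD P γ) j n :=
  Pool.Agent.Helper81.LL.LLfin P β hβ x hx

end Pool.Agent.Helper25.EV
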