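import Pool.Agent.Helper25.EV.RTmain
import Pool.Agent.Helper25.EV.ARmain
import Pool.Agent.Helper25.EV.ITmain
import Pool.Agent.Helper25.EV.LLmain
import Pool.Agent.Helper25.EV.FTmain

/-!
# The final assembly
-/

set_option autoImplicit false

namespace Pool.Agent.Helper25.EV

open Ordinal

theorem run_zero (p : Prog) (y : Real2) : run p y 0 = initSnap p y := by
  unfold run
  exact Ordinal.limitRecOn_zero ..

theorem run_succ (p : Prog) (y : Real2) (α : Ordinal.{0}) :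
    run p y (α + 1) = stepSnap p (run p y α) := by
  unfold run
  exact Ordinal.limitRecOn_add_one ..

theorem run_lim (p : Prog) (y : Real2) (l : Ordinal.{0}) (hl : Order.IsSuccLimit l) :
    run p y l = limSnap p l fun β _ => run p y β := by
  unfold run
  exact Ordinal.limitRecOn_limit _ _ _ _ hl

/-- a halted machine stays as it is -/
theorem run_halt (p : Prog) (y : Real2) (α : Ordinal.{0}) (h : (run p y α).st = none)
    (hmin : ∀ β < α, (run p y β).st ≠ none) :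
    ∀ β, α ≤ β → run p y β = run p y α := by
  intro β
  induction β using Ordinal.limitRecOn with
  | zero =>
    intro hb
    have : α = 0 := le_antisymm hb (by simp)
    rw [this]
  | add_one γ ih =>
    intro hb
    rcases hb.eq_or_lt with e | l
    · rw [e]
    · have h1 := ih (Order.lt_add_one_iff.mp l)
      rw [run_succ, h1]
      unfold stepSnap
      rw [h]
  | limit l hl ih =>
    intro hb
    rcases hb.eq_or_lt with e | lt
    · rw [e]
    · rw [run_lim p y l hl]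
      have hex : ∃ (β : Ordinal.{0}) (hb : β < l), (run p y β).st = none := ⟨α, lt, h⟩
      unfold limSnap
      rw [dif_pos hex]
      have h2 := hex.choose_spec.choose_spec
      have h3 : α ≤ hex.choose := by
        by_contra hc
        exact hmin _ (not_le.mp hc) h2
      exact ih _ hex.choose_spec.choose h3

theorem semidec (P : LPr) (hP : P.Prim) (x : Real2)
    (h1 : ∀ β, Pre (FC P x) β → Nat.pair 9 0 ∉ labY P x β)
    (h2 : ∀ y, y ≠ x → ∃ β, Pre (FC P y) β ∧ Nat.pair 9 0 ∈ labY P y β) :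
    EventuallySemidecidable {x} := by
  obtain ⟨nl, hnl⟩ := AR P hP
  obtain ⟨M, hM, hT⟩ := RT nl (labY P) hnl (by
    intro y β _
    have : Nat.pair 0 0 ∈ labY P y β := by
      unfold labY stY
      rw [WellFounded.fix_eq]
      exact Or.inl (Or.inl ⟨0, rfl, Or.inl rfl⟩)
    exact this)
  obtain ⟨p, hp⟩ := MP M hM
  refine ⟨p, fun y => ?_⟩
  constructor
  · intro hy
    rw [Set.mem_singleton_iff] at hy
    have h3 : ∀ t, 0 ∉ mrun M y t := by
      intro t ht
      obtain ⟨β, hβ, hβ'⟩ := (hT y).mp ⟨t, ht⟩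
      rw [hy] at hβ hβ'
      exact h1 β hβ hβ'
    obtain ⟨α, hα⟩ := (hp y).1 h3
    exact ⟨α, fun β hβ => (hα β hβ).2⟩
  · rintro ⟨α, hα⟩
    rw [Set.mem_singleton_iff]
    by_contra hy
    obtain ⟨t, ht⟩ := (hT y).mpr (h2 y hy)
    have ht' : ∃ t, 0 ∈ mrun M y t := ⟨t, ht⟩
    obtain ⟨t, ht, hmin⟩ : ∃ t, 0 ∈ mrun M y t ∧ ∀ s < t, 0 ∉ mrun M y s := by
      have := WellFounded.has_min Ordinal.lt_wf {t | 0 ∈ mrun M y t} ht'
      obtain ⟨m, hm, hm'⟩ := this
      exact ⟨m, hm, fun s hs hc => hm' s hc hs⟩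
    obtain ⟨γ, _, hγ1, hγ2, hγ3⟩ := (hp y).2 t ht hmin
    have h4 := run_halt p y γ hγ1 hγ2 (max α γ) (le_max_right _ _)
    have h5 := hα (max α γ) (le_max_left _ _)
    rw [h4, hγ3] at h5
    exact Bool.noConfusion h5

theorem loc_FC (P : LPr) (x : Real2) (β : Ordinal.{0}) (n : ℕ) :
    2 * (2 * n) + 1 ∈ FC P x β ↔ n ∈ loc P x β := by
  rw [odd_FC, mem_FY_loc]

theorem loop_loc (P : LPr) (x : Real2) {ζ Ξ : Ordinal.{0}} (h : Loop (FC P x) ζ Ξ) :
    Loop (loc P x) ζ Ξ := by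
  have hs : ∀ (n : ℕ) (a b : Ordinal.{0}), Silent (loc P x) n a b ↔
      Silent (FC P x) (2 * (2 * n) + 1) a b := by
    intro n a b
    constructor
    · intro h1 α h2 h3 h4
      exact h1 α h2 h3 ((loc_FC P x α n).mp h4)
    · intro h1 α h2 h3 h4
      exact h1 α h2 h3 ((loc_FC P x α n).mpr h4)
  have hz : ∀ (n : ℕ) (b : Ordinal.{0}), n ∈ Zc (loc P x) b ↔
      2 * (2 * n) + 1 ∈ Zc (FC P x) b := by
    intro n b
    constructor
    · rintro ⟨a, h1, h2⟩
      exact ⟨a, h1, (hs n a b).mp h2⟩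
    · rintro ⟨a, h1, h2⟩
      exact ⟨a, h1, (hs n a b).mpr h2⟩
  refine ⟨h.lt, h.lim1, h.lim2, ?_, ?_⟩
  · ext n
    rw [hz, hz, h.same]
  · intro n hn
    rw [hs]
    exact h.sil _ ((hz n ζ).mp hn)

/-- MAIN THEOREM (with the information that the set of the `x`-writable ordinals is bounded). -/
theorem main_bdd : ∃ x : Real2, EventuallySemidecidable {x} ∧ BddAbove {α | Writable x α} ∧
    ¬ RealIn x (Lh (lam x)) := by
  obtain ⟨P, hP, hIT⟩ := IT
  obtain ⟨x, ζ, Ξ, h1, h2, h3, h4, h5⟩ := FT P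
  have h6 : Loop (loc P x) ζ Ξ := loop_loc P x h2
  obtain ⟨h7', h7⟩ := hIT x ζ Ξ h6
  refine ⟨x, semidec P hP x h3 h4, ⟨ζ, fun α hα => le_of_lt (h7' α hα)⟩, ?_⟩
  intro hx
  have h8 : RealIn x (Lh ζ) := by
    obtain ⟨X, hX, hX'⟩ := hx
    exact ⟨X, Lh_mono h7 hX, hX'⟩
  have h9 : ∀ η δ, Loop (FD P) η δ → ζ < δ := fun η δ hl => lt_of_lt_of_le h2.lt (h1 η δ hl)
  obtain ⟨γ, hγ, j, hj⟩ := LL P ζ h9 x h8
  exact h5 γ (lt_trans hγ h2.lt) j hj

/-- MAIN THEOREM. -/
theorem main : ∃ x : Real2, EventuallySemidecidable {x} ∧ ¬ RealIn x (Lh (lam x)) := by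
  obtain ⟨x, h1, _, h2⟩ := main_bdd
  exact ⟨x, h1, h2⟩

end Pool.Agent.Helper25.EV
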