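import Pool.Agent.Helper25.EV.Macro

/-!
# Firing processes, loops, codes of histories: the interface of chapter RT
-/

set_option autoImplicit false

namespace Pool.Agent.Helper25.EV

open Ordinal

/-- the cell `c` does not fire at the stages in `[a, b)` -/
def Silent (F : Ordinal.{0} → Set ℕ) (c : ℕ) (a b : Ordinal.{0}) : Prop :=
  ∀ α, a ≤ α → α < b → c ∉ F α

/-- the cells which are silent on a final segment of `β` -/
def Zc (F : Ordinal.{0} → Set ℕ) (β : Ordinal.{0}) : Set ℕ := {c | ∃ a < β, Silent F c a β}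

/-- a loop pair of a firing process -/
structure Loop (F : Ordinal.{0} → Set ℕ) (η δ : Ordinal.{0}) : Prop where
  lt : η < δ
  lim1 : Order.IsSuccLimit η
  lim2 : Order.IsSuccLimit δ
  same : Zc F η = Zc F δ
  sil : ∀ c ∈ Zc F η, Silent F c η δ

/-- the stage `β` comes before the end of the first loop -/
def Pre (F : Ordinal.{0} → Set ℕ) (β : Ordinal.{0}) : Prop := ∀ η δ, Loop F η δ → β < δ

/-- the cells which fire according to a label -/
def fires (L : Set ℕ) : Set ℕ := {c | Nat.pair 0 c ∈ L}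

/-- `X` codes the labelled well-order `(β, lab)`: the domain is `{k | ⟨0, k⟩ ∈ X}`, the order is
`{(k, k') | ⟨1, k, k'⟩ ∈ X}`, and the label of `k` is `{i | ⟨2, k, i⟩ ∈ X}`. -/
def CodesH (X : Set ℕ) (β : Ordinal.{0}) (lab : Ordinal.{0} → Set ℕ) : Prop :=
  ∃ f : ℕ → Ordinal.{0}, Set.BijOn f {k | Nat.pair 0 k ∈ X} (Set.Iio β) ∧
    (∀ k k', Nat.pair 1 (Nat.pair k k') ∈ X ↔
      Nat.pair 0 k ∈ X ∧ Nat.pair 0 k' ∈ X ∧ f k < f k') ∧
    ∀ k i, Nat.pair 2 (Nat.pair k i) ∈ X ↔ Nat.pair 0 k ∈ X ∧ i ∈ lab (f k)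

/-- the join of two sets -/
def jn (A B : Set ℕ) : Set ℕ := {m | (∃ n ∈ A, m = 2 * n) ∨ ∃ n ∈ B, m = 2 * n + 1}

/-- a list of instructions computes the labels of a labelled process (with a real parameter) before
the end of the first loop, from every code of the history -/
def Computes (nl : List Instr) (lab : Real2 → Ordinal.{0} → Set ℕ) : Prop :=
  (∀ I ∈ nl, I.ok) ∧ ∀ (y : Real2) (β : Ordinal.{0}) (X : Set ℕ),
    Pre (fun γ => fires (lab y γ)) β → CodesH X β (lab y) → execs nl (jn X (setOf' y)) = lab y β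

/-- the statement of chapter RT: the macro program `M` finds an alarm iff the labelled process has
an alarm (the number `⟨9, 0⟩` in a label) before the end of its first loop -/
def Tracks (M : Macro) (lab : Real2 → Ordinal.{0} → Set ℕ) : Prop :=
  M.ok ∧ ∀ y : Real2, (∃ t, 0 ∈ mrun M y t) ↔
    ∃ β, Pre (fun γ => fires (lab y γ)) β ∧ Nat.pair 9 0 ∈ lab y β

end Pool.Agent.Helper25.EV
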