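import Pool.Agent.Helper25.EV.Fire

/-!
# The label operator, for an arbitrary history structure

A history structure is a (well-)ordered set of past stages with labels (sets of numbers).  All
definitions below only use quantifiers over stages, natural numbers and finite objects, so that they
make sense for the true history (stages = ordinals below `β`) and for a code of it (stages = natural
numbers).
-/

set_option autoImplicit false

namespace Pool.Agent.Helper25.EV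

open Encodable

universe u

/-- a history structure: the past stages `D`, their order, their labels, and `num g a k`: `a` has the
number `k` in the canonical code of the stage `g` -/
structure Hs (A : Type u) where
  D : A → Prop
  lt : A → A → Prop
  lab : A → Set ℕ
  num : A → A → ℕ → Prop

/-- a local process: initial values (a bit of the input or a constant), neighbours, local rule, reset
values at limit stages (`none`: limit superior) -/
structure LPr where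
  ini : ℕ → ℕ ⊕ Bool
  nb : ℕ → List ℕ
  ev : ℕ → List Bool → Bool
  rs : ℕ → Option Bool

/-- iteration of a relation along a list of bits (from the left to the right): `chR init step σ x` -/
def chR {B : Type u} (init : B → Prop) (step : ℕ → Bool → B → B → Prop) : List Bool → B → Prop
  | [], x => init x
  | b :: t, x => ∃ r, chR init step t r ∧ step t.length b r x

/-- `ch init step σ x`: `x` is reached along the list `σ` -/
def ch {B : Type u} (init : B → Prop) (step : ℕ → Bool → B → B → Prop) (σ : List Bool) (x : B) :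
    Prop := chR init step σ.reverse x

/-- the schedule: every cell infinitely often -/
def sch (j : ℕ) : ℕ := (Nat.unpair j).1

namespace Hs

variable {A : Type u} (H : Hs A)

def le (a b : A) : Prop := H.lt a b ∨ a = b

/-- the history up to the stage `a` -/
def res (a : A) : Hs A := { H with D := fun b => H.D b ∧ H.lt b a }

def isMin (a : A) : Prop := H.D a ∧ ∀ b, H.D b → ¬ H.lt b a

def isMax (a : A) : Prop := H.D a ∧ ∀ b, H.D b → ¬ H.lt a b

/-- the top stage is a limit -/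
def isLim : Prop := (∃ a, H.D a) ∧ ∀ a, ¬ H.isMax a

/-- the stage `a` is a limit -/
def limAt (a : A) : Prop := H.D a ∧ (H.res a).isLim

/-- `b` is the successor of `a` -/
def sc (a b : A) : Prop := H.D a ∧ H.D b ∧ H.lt a b ∧ ∀ c, H.D c → H.lt a c → ¬ H.lt c b

/-! ## Canonical numbers and names; `fr a c`: the cell `c` fires at the stage `a` -/

section Names

variable (fr : A → ℕ → Prop)

/-- the cell `c` is silent from `a` on -/
def silF (c : ℕ) (a : A) : Prop := ∀ b, H.D b → H.le a b → ¬ fr b c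

/-- the cell `c` is silent on a final segment -/
def sil (c : ℕ) : Prop := ∃ a, H.D a ∧ H.silF fr c a

/-- one step of the sequence of cuts -/
def cutStep (g : Bool) (c : ℕ) (w x : A) : Prop :=
  H.D x ∧
    ((g = true ∧ H.le w x ∧ H.silF fr c x ∧ ∀ x', H.D x' → H.le w x' → H.silF fr c x' → H.le x x') ∨
    (g = false ∧ ∃ f, H.D f ∧ H.le w f ∧ fr f c ∧ (∀ f', H.D f' → H.le w f' → fr f' c → H.le f f') ∧
      H.sc f x))

/-- `cut fr τ j x`: the `j`-th cut for the guess `τ` is (defined and equal to) `x` -/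
def cut (τ : List Bool) : ℕ → A → Prop
  | 0, x => H.isMin x
  | j + 1, x => ∃ w, cut τ j w ∧ H.cutStep fr (τ.getD (sch j) false) (sch j) w x

/-- `τ` is the true guess (for a limit top stage) -/
def tg (τ : List Bool) : Prop := ∀ c < τ.length, τ.getD c false = true ↔ H.sil fr c

/-- `a` has the number `k` in the canonical code of the top stage -/
def nn (a : A) (k : ℕ) : Prop :=
  (∃ m, H.isMax m ∧ ((a = m ∧ k = 0) ∨ (H.lt a m ∧ ∃ k', H.num m a k' ∧ k = k' + 1))) ∨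
  (H.isLim ∧ H.D a ∧ ∃ τ g, H.tg fr τ ∧ H.cut fr τ τ.length g ∧ H.lt a g ∧
    (∀ g', H.cut fr τ (τ.length - 1) g' → ¬ H.lt a g') ∧
    ∃ k', H.num g a k' ∧ k = Nat.pair τ.length k')

/-- the name `(τ, k)` denotes `a` -/
def nm (τ : List Bool) (k : ℕ) (a : A) : Prop := ∃ g, H.cut fr τ τ.length g ∧ H.num g a k

end Names

/-- the `d`-cells -/
def frD (a : A) (d : ℕ) : Prop := Nat.pair 0 (2 * d) ∈ H.lab a

/-- the `y`-cells -/
def frY (a : A) (n : ℕ) : Prop := Nat.pair 0 (2 * n + 1) ∈ H.lab a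

/-- the canonical number of `a`, with respect to the `d`-cells -/
def nD (a : A) (k : ℕ) : Prop := H.nn H.frD a k

/-- the name `(τ, k)` denotes `a`, with respect to the `d`-cells -/
def nmD (τ : List Bool) (k : ℕ) (a : A) : Prop := H.nm H.frD τ k a

/-- the canonical code of a past stage (tag 1) -/
def cD (a : A) (m : ℕ) : Prop := Nat.pair 1 m ∈ H.lab a

/-- the canonical code of the top stage -/
def newC (m : ℕ) : Prop :=
  ∃ a a' k k', H.D a ∧ H.D a' ∧ H.le a a' ∧ H.nD a k ∧ H.nD a' k' ∧ m = Nat.pair k k'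

/-! ## Conditions: triples (birth, index, string) -/

/-- the table of the embeddings (tag 2) -/
def tab (a : A) (x : ℕ) (σ τ : List Bool) : Prop := Nat.pair 2 (encode (x, σ, τ)) ∈ H.lab a

/-- the reading tables (tags 3 and 4) -/
def tr (t : ℕ) (a : A) (x k n : ℕ) (σ : List Bool) (i : Bool) : Prop :=
  Nat.pair t (encode (x, k, n, σ, i)) ∈ H.lab a

/-- the embedding of the condition `c` -/
def phi (c : A × ℕ × List Bool) (σ τ : List Bool) : Prop := H.tab c.1 c.2.1 (c.2.2 ++ σ) τ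

def isC (c : A × ℕ × List Bool) : Prop := H.D c.1 ∧ ∃ τ, H.phi c [] τ

/-- `s` is in the tree of `c` -/
def inT (c : A × ℕ × List Bool) (s : List Bool) : Prop := ∃ σ τ, H.phi c σ τ ∧ s <+: τ

/-- the tree of `c` is contained in the tree of `c'` -/
def Le (c c' : A × ℕ × List Bool) : Prop := ∀ σ τ, H.phi c σ τ → H.inT c' τ

/-- the trees of `c` and `c'` have no common branch -/
def Dj (c c' : A × ℕ × List Bool) : Prop :=
  ∃ k, ∀ σ, σ.length = k → ∀ τ, H.phi c σ τ → ¬ H.inT c' τ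

/-- reading of the `y`-cell `n` at the stage `α` (tag 3: the cell is on; tag 4: the cell is silent on a
final segment of `α`) -/
def rd (t : ℕ) (c : A × ℕ × List Bool) (α : A) (n : ℕ) (σ : List Bool) (i : Bool) : Prop :=
  H.D α ∧ H.lt α c.1 ∧ ∃ k, H.num c.1 α k ∧ H.tr t c.1 c.2.1 k n (c.2.2 ++ σ) i

/-- `c` forces that the cell `n` is on at the stage `α` (`t = 3`) resp. silent below `α` (`t = 4`) -/
def Frc (t : ℕ) (c : A × ℕ × List Bool) (α : A) (n : ℕ) : Prop :=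
  H.D α ∧ H.lt α c.1 ∧ ∀ σ, ¬ H.rd t c α n σ false

/-- `c` forces that the cell `n` is on at some stage after `b` -/
def Hit (b : A) (n : ℕ) (c : A × ℕ × List Bool) : Prop :=
  ∃ α, H.D α ∧ H.lt b α ∧ H.lt α c.1 ∧ H.Frc 3 c α n

/-- `c` forces that `η` is dead before the birth of `c` -/
def Dead (c : A × ℕ × List Bool) (η : A) : Prop :=
  ∃ k, ∀ σ, σ.length = k → ∃ n α, H.D α ∧ H.le η α ∧ H.lt α c.1 ∧ H.rd 4 c η n σ true ∧
    H.rd 3 c α n σ true

/-- the event `η` progresses to the condition `c` at the stage `δ` (tag 5) -/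
def evt (η δ : A) (c : A × ℕ × List Bool) : Prop :=
  H.D δ ∧ ∃ k k', H.num δ η k ∧ H.num δ c.1 k' ∧
    Nat.pair 5 (encode (k, k', c.2.1, c.2.2)) ∈ H.lab δ

/-- `c` is valid at the top stage -/
def Q (c : A × ℕ × List Bool) : Prop :=
  H.isC c ∧ ∀ η δ c', H.evt η δ c' → H.le η c.1 → H.le c.1 δ → H.Dead c η ∨ H.Le c c'

/-- type 0 -/
def T0 (c : A × ℕ × List Bool) (n : ℕ) : Prop := ∀ c', H.isC c' → H.Le c' c → ¬ H.Hit c.1 n c'

/-- type 1 -/
def T1 (c : A × ℕ × List Bool) (n : ℕ) : Prop := ∀ c', H.Q c' → H.Le c' c → ¬ H.T0 c' n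

/-- restriction of a condition -/
def rst (c : A × ℕ × List Bool) (b : Bool) : A × ℕ × List Bool := (c.1, c.2.1, c.2.2 ++ [b])

/-- the number of a condition at the top stage -/
def nC (c : A × ℕ × List Bool) (m : ℕ) : Prop :=
  ∃ k, H.nD c.1 k ∧ m = encode (k, c.2.1, c.2.2)

/-- the requirements of the fusion at a limit stage; `k = ⟨kind, p, n⟩` -/
def Rq (k : ℕ) (c : A × ℕ × List Bool) : Prop :=
  let kind := (Nat.unpair k).1
  let p := (Nat.unpair (Nat.unpair k).2).1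
  let n := (Nat.unpair (Nat.unpair k).2).2
  (kind = 0 → ∀ a, H.D a → H.nD a p → H.lt a c.1) ∧
  (kind = 1 → ∀ a x σ, H.D a → H.nD a p → n = encode (x, σ) → H.isC (a, x, σ) →
    H.Le c (a, x, σ) ∨ H.Dj c (a, x, σ)) ∧
  (kind = 2 → H.T0 c n ∨ H.T1 c n) ∧
  (kind = 3 → ∀ a, H.D a → H.nD a p → H.T0 c n ∨
    ∃ α, H.D α ∧ H.lt a α ∧ H.lt α c.1 ∧ H.Frc 3 c α n)

/-- one step of the fusion: the least valid extension with the `k`-th requirement -/
def Ext (k : ℕ) (c c' : A × ℕ × List Bool) : Prop :=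
  (H.Q c' ∧ H.Le c' c ∧ H.Rq k c') ∧
    ∀ c'' m m', H.Q c'' → H.Le c'' c → H.Rq k c'' → H.nC c' m → H.nC c'' m' → m ≤ m'

/-- the fusion at a limit stage -/
def fus (σ : List Bool) (c : A × ℕ × List Bool) : Prop :=
  ch (fun c => H.isMin c.1 ∧ c.2 = (0, [])) (fun k b c c' => H.Ext k (rst c b) c') σ c

/-! ## Coding at a successor stage -/

/-- the real which codes all past stages -/
def wt (n : ℕ) : Prop := ∃ η, H.D η ∧ H.nD η (Nat.unpair n).1 ∧ H.cD η (Nat.unpair n).2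

/-- the tree of `c` with the even bits equal to `wt` -/
def th (c : A × ℕ × List Bool) (σ τ : List Bool) : Prop :=
  ∃ u : List Bool, u.length = 2 * σ.length + 1 ∧
    (∀ m < u.length, (m % 2 = 0 → (u.getD m false = true ↔ H.wt (m / 2))) ∧
      (m % 2 = 1 → u.getD m false = σ.getD (m / 2) false)) ∧ H.phi c u τ

/-- the tree of the event of the `K`-cell `(τ, k, x, ρ, i)` at the past stage `α` -/
def inK (α : A) (κ : List Bool × ℕ × ℕ × List Bool × ℕ) (s : List Bool) : Prop :=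
  ∃ a, (H.res α).nmD κ.1 κ.2.1 a ∧ ∃ u τ, H.phi (a, κ.2.2.1, κ.2.2.2.1) u τ ∧ s <+: τ ∧
    ∀ m, 2 * Nat.pair κ.2.2.2.2 m < u.length →
      (u.getD (2 * Nat.pair κ.2.2.2.2 m) false = true ↔ H.cD α m)

/-- elements of the forcing tables: (kind, string, cell, value) -/
def enF (z : Bool) (σ : List Bool) (n : ℕ) (i : Bool) : ℕ := encode (z, σ, n, i)

/-- the row of stage `α` of the forcing table, from the earlier rows -/
def row (P : LPr) (c : A × ℕ × List Bool) (T : A → Set ℕ) (α : A) (z : Bool) (σ : List Bool)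
    (n : ℕ) (i : Bool) : Prop :=
  let Zt (σ : List Bool) : Prop := ∃ β, H.D β ∧ H.lt β α ∧ ∀ α', H.D α' → H.le β α' →
    H.lt α' α → ∀ τ, σ <+: τ → enF false τ n true ∉ T α'
  let Zf (σ : List Bool) : Prop := ∀ τ, σ <+: τ → ¬ Zt τ
  (z = true ∧ H.limAt α ∧ ((i = true ∧ Zt σ) ∨ (i = false ∧ Zf σ))) ∨
  (z = false ∧
    ((∃ n', n = 2 * n' ∧
      ((H.isMin α ∧ ((∃ k, P.ini n' = Sum.inl k ∧ ∃ τ, H.th c σ τ ∧ k < τ.length ∧
          τ.getD k false = i) ∨ P.ini n' = Sum.inr i)) ∨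
       (∃ α', H.sc α' α ∧ ∃ v : List Bool, v.length = (P.nb n').length ∧
          (∀ j < v.length, enF false σ (2 * (P.nb n').getD j 0) (v.getD j false) ∈ T α') ∧
          P.ev n' v = i) ∨
       (H.limAt α ∧ (P.rs n' = some i ∨ (P.rs n' = none ∧
          ((i = false ∧ Zt σ) ∨ (i = true ∧ Zf σ))))))) ∨
    (∃ κ : List Bool × ℕ × ℕ × List Bool × ℕ, n = 2 * encode κ + 1 ∧
      ((i = true ∧ ∀ σ' τ, σ <+: σ' → H.th c σ' τ → H.inK α κ τ) ∨
       (i = false ∧ ∃ τ, H.th c σ τ ∧ ¬ H.inK α κ τ))) ∨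
    ((¬ ∃ n', n = 2 * n') ∧ (¬ ∃ κ : List Bool × ℕ × ℕ × List Bool × ℕ, n = 2 * encode κ + 1) ∧
      i = false)))

/-- the forcing table below the coding extension of `c` -/
def RR (P : LPr) (c : A × ℕ × List Bool) (α : A) (z : Bool) (σ : List Bool) (n : ℕ) (i : Bool) :
    Prop :=
  ∃ T : A → Set ℕ, (∀ α', H.D α' → H.le α' α → ∀ m, m ∈ T α' ↔
    ∃ z σ n i, m = enF z σ n i ∧ H.row P c T α' z σ n i) ∧ enF z σ n i ∈ T α

/-- the dense sets; `k = ⟨kind, p, q, n⟩`; `rl L j` is the `j`-th real listed in the label `L` -/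
def dk (P : LPr) (rl : Set ℕ → ℕ → ℕ → Prop) (c : A × ℕ × List Bool) (k : ℕ) (σ : List Bool) :
    Prop :=
  let kind := (Nat.unpair k).1
  let p := (Nat.unpair (Nat.unpair k).2).1
  let q := (Nat.unpair (Nat.unpair (Nat.unpair k).2).2).1
  let n := (Nat.unpair (Nat.unpair (Nat.unpair k).2).2).2
  (kind = 0 → ∀ α, H.D α → H.nD α p → ∃ i, H.RR P c α false σ n i) ∧
  (kind = 1 → ∀ α, H.limAt α → H.nD α p → ∃ i, H.RR P c α true σ n i) ∧
  (kind = 2 → ∀ α β, H.limAt α → H.D β → H.lt β α → H.nD α p → H.nD β q →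
    H.RR P c α true σ n true ∨
      ∃ α', H.D α' ∧ H.le β α' ∧ H.lt α' α ∧ H.RR P c α' false σ n true) ∧
  (kind = 3 → ∀ γ, H.D γ → H.nD γ p → ∃ τ, H.th c σ τ ∧ ∃ m < τ.length,
    ¬ (τ.getD m false = true ↔ rl (H.lab γ) n m))

/-- the least extension of `r` in the `k`-th dense set -/
def lext (P : LPr) (rl : Set ℕ → ℕ → ℕ → Prop) (c : A × ℕ × List Bool) (r : List Bool) (k : ℕ)
    (ρ : List Bool) : Prop :=
  (r <+: ρ ∧ H.dk P rl c k ρ) ∧ ∀ ρ', r <+: ρ' → H.dk P rl c k ρ' → encode ρ ≤ encode ρ'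

/-- the perfect set of generic reals -/
def psi (P : LPr) (rl : Set ℕ → ℕ → ℕ → Prop) (c : A × ℕ × List Bool) (σ ρ : List Bool) : Prop :=
  ch (fun ρ => H.lext P rl c [] 0 ρ) (fun k b ρ ρ' => H.lext P rl c (ρ ++ [b]) (k + 1) ρ') σ ρ

/-! ## The new tables -/

/-- the condition which is coded by the new index `x` at a successor stage -/
def src (x : ℕ) (c : A × ℕ × List Bool) : Prop :=
  (∃ m, H.isMax m) ∧ H.nC c x ∧ H.Q c

/-- the new embeddings (tag 2) -/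
def ntab (P : LPr) (rl : Set ℕ → ℕ → ℕ → Prop) (x : ℕ) (σ τ : List Bool) : Prop :=
  ((∀ a, ¬ H.D a) ∧ x = 0 ∧ τ = σ) ∨
  (∃ c, H.src x c ∧ ∃ ρ, H.psi P rl c σ ρ ∧ H.th c ρ τ) ∨
  (H.isLim ∧ x = 0 ∧ ∃ c, H.fus σ c ∧ H.phi c [] τ)

/-- the new reading tables (`z = false`: tag 3, `z = true`: tag 4) -/
def nrd (P : LPr) (rl : Set ℕ → ℕ → ℕ → Prop) (z : Bool) (x k n : ℕ) (σ : List Bool) (i : Bool) :
    Prop :=
  (∃ c, H.src x c ∧ ∃ α ρ, H.D α ∧ H.nD α k ∧ H.psi P rl c σ ρ ∧ H.RR P c α z ρ n i) ∨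
  (H.isLim ∧ x = 0 ∧ ∃ α σ' c ρ τ' τ, H.D α ∧ H.nD α k ∧ σ' <+: σ ∧ H.fus σ' c ∧ H.lt α c.1 ∧
    H.phi c ρ τ' ∧ H.ntab P rl 0 σ τ ∧ τ' <+: τ ∧
    H.rd (if z then 4 else 3) c α n ρ i)

/-! ## Events -/

/-- the `m`-th event of `η`: stage and condition -/
def cur (η : A) : ℕ → A × (A × ℕ × List Bool) → Prop
  | 0, e => e = (η, (η, 0, []))
  | m + 1, e => ∃ e', cur η m e' ∧ H.lt e'.1 e.1 ∧ H.evt η e.1 e.2 ∧
      ∀ (δ : A) (c : A × ℕ × List Bool), H.lt e'.1 δ → H.lt δ e.1 → ¬ H.evt η δ c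

/-- the requirement of the `m`-th event -/
def rqE (m : ℕ) (δ η : A) (c : A × ℕ × List Bool) : Prop :=
  (∃ d, sch m = 2 * d ∧ ((H.res η).sil H.frD d ∨ ∃ α, H.D α ∧ H.lt δ α ∧ H.frD α d)) ∨
  (∃ n, sch m = 2 * n + 1 ∧ (H.Frc 4 c η n ∨ ∃ α, H.D α ∧ H.lt δ α ∧ H.lt α c.1 ∧ H.Frc 3 c α n))

/-- `c` can be the next condition of `η` -/
def evOK (η : A) (c : A × ℕ × List Bool) : Prop :=
  H.limAt η ∧ (∀ d, (H.res η).sil H.frD d → H.silF H.frD d η) ∧
  ∃ m e, H.cur η m e ∧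
    (∀ (δ : A) (c' : A × ℕ × List Bool), H.lt e.1 δ → ¬ H.evt η δ c') ∧
    H.isC c ∧ H.lt e.1 c.1 ∧ H.Le c e.2 ∧
    (∃ τ τ', H.phi c [] τ ∧ H.phi e.2 [] τ' ∧ τ'.length < τ.length) ∧
    (∀ η', H.limAt η' → H.lt η η' → H.le η' c.1 → H.Dead c η') ∧
    H.rqE m e.1 η c

/-- the events of the top stage -/
def nev (η : A) (c : A × ℕ × List Bool) : Prop :=
  H.evOK η c ∧ ∀ c' m m', H.evOK η c' → H.nC c m → H.nC c' m' → m ≤ m'

/-! ## The `d`-cells -/

/-- `c` is refuted (as a condition which is valid forever and never hit by the cell `n`) -/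
def refu (c : A × ℕ × List Bool) (n : ℕ) : Prop :=
  ¬ H.Q c ∨ ∃ c', H.isC c' ∧ H.Le c' c ∧ H.Hit c.1 n c'

/-- all extensions of `c` which are born at most at `ξ` are refuted -/
def aref (c : A × ℕ × List Bool) (n : ℕ) (ξ : A) : Prop :=
  ∀ c', H.isC c' → H.Le c' c → H.le c'.1 ξ → H.refu c' n

/-- the `d`-cell `d` fires at the top stage -/
def nfD (d : ℕ) : Prop :=
  d = Nat.pair 0 0 ∨
  (∃ τ k, d = Nat.pair 1 (encode (τ, k)) ∧ ∃ η, H.nmD τ k η ∧ ∃ b c, H.isMax b ∧ H.evt η b c) ∨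
  (∃ τ k x σ n, d = Nat.pair 2 (encode ((τ, k, x, σ, n) : List Bool × ℕ × ℕ × List Bool × ℕ)) ∧
    ∃ a, H.nmD τ k a ∧ H.isC (a, x, σ) ∧ ∃ c, H.isC c ∧ H.isMax c.1 ∧ H.Le c (a, x, σ) ∧
      H.Hit a n c) ∨
  (∃ τ k x σ n τ' k', d = Nat.pair 3 (encode
      ((τ, k, x, σ, n, τ', k') : List Bool × ℕ × ℕ × List Bool × ℕ × List Bool × ℕ)) ∧
    ∃ a ξ, H.nmD τ k a ∧ H.nmD τ' k' ξ ∧ H.isC (a, x, σ) ∧ H.aref (a, x, σ) n ξ ∧
      ∀ b, H.D b → H.lt a b → H.lt ξ b → ¬ (H.res b).aref (a, x, σ) n ξ) ∨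
  (∃ τ k x σ n, d = Nat.pair 4 (encode ((τ, k, x, σ, n) : List Bool × ℕ × ℕ × List Bool × ℕ)) ∧
    ∃ a, H.nmD τ k a ∧ H.isC (a, x, σ) ∧ ∀ ξ, H.D ξ → H.frD ξ d → H.aref (a, x, σ) n ξ)

/-- the label of the top stage, without `y`; `nl` is the contribution of the chapter LL (tags 6 and
larger) -/
def nlab (P : LPr) (rl : Set ℕ → ℕ → ℕ → Prop) (nL : Set ℕ) : Set ℕ :=
  {m | (∃ d, m = Nat.pair 0 (2 * d) ∧ H.nfD d) ∨ (∃ p, m = Nat.pair 1 p ∧ H.newC p) ∨
    (∃ x σ τ, m = Nat.pair 2 (encode ((x, σ, τ) : ℕ × List Bool × List Bool)) ∧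
      H.ntab P rl x σ τ) ∨
    (∃ x k n σ i, m = Nat.pair 3 (encode ((x, k, n, σ, i) : ℕ × ℕ × ℕ × List Bool × Bool)) ∧
      H.nrd P rl false x k n σ i) ∨
    (∃ x k n σ i, m = Nat.pair 4 (encode ((x, k, n, σ, i) : ℕ × ℕ × ℕ × List Bool × Bool)) ∧
      H.nrd P rl true x k n σ i) ∨
    (∃ η a x σ k k', m = Nat.pair 5 (encode ((k, k', x, σ) : ℕ × ℕ × ℕ × List Bool)) ∧
      H.nD η k ∧ H.nD a k' ∧ H.nev η (a, x, σ)) ∨ m ∈ nL}

/-! ## The cells of the input `y`, and the alarm -/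

/-- the value of the local cell `n` at the top stage -/
def nyL (P : LPr) (y : ℕ → Bool) (n : ℕ) : Prop :=
  ((∀ a, ¬ H.D a) ∧ ((∃ k, P.ini n = Sum.inl k ∧ y k = true) ∨ P.ini n = Sum.inr true)) ∨
  (∃ m, H.isMax m ∧ ∃ v : List Bool, v.length = (P.nb n).length ∧
    (∀ j < v.length, v.getD j false = true ↔ H.frY m (2 * (P.nb n).getD j 0)) ∧
    P.ev n v = true) ∨
  (H.isLim ∧ (P.rs n = some true ∨ (P.rs n = none ∧ ¬ H.sil H.frY (2 * n))))

/-- the `K`-cell `κ` fires at the top stage -/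
def nyK (y : ℕ → Bool) (κ : List Bool × ℕ × ℕ × List Bool × ℕ) : Prop :=
  ∃ a, H.nmD κ.1 κ.2.1 a ∧ ∀ j, ∃ u τ, H.phi (a, κ.2.2.1, κ.2.2.2.1) u τ ∧ j ≤ τ.length ∧
    (∀ m < j, τ.getD m false = y m) ∧
    ∀ m, 2 * Nat.pair κ.2.2.2.2 m < u.length →
      (u.getD (2 * Nat.pair κ.2.2.2.2 m) false = true ↔ H.newC m)

/-- the `y`-cell `n` is on at the top stage -/
def nY (P : LPr) (y : ℕ → Bool) (n : ℕ) : Prop :=
  (∃ n', n = 2 * n' ∧ H.nyL P y n') ∨
  ∃ κ : List Bool × ℕ × ℕ × List Bool × ℕ, n = 2 * encode κ + 1 ∧ H.nyK y κ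

/-- `η` is dead for `y` -/
def deadY (η : A) : Prop :=
  ∃ n α, (H.res η).sil H.frY n ∧ H.D α ∧ H.le η α ∧ H.frY α n

/-- `(η, δ)` is a loop of the `d`-cells -/
def loopD (η δ : A) : Prop :=
  H.limAt η ∧ H.limAt δ ∧ H.lt η δ ∧ (∀ d, (H.res η).sil H.frD d ↔ (H.res δ).sil H.frD d) ∧
  ∀ d, (H.res η).sil H.frD d → ∀ α, H.D α → H.le η α → H.lt α δ → ¬ H.frD α d

/-- the alarm of the top stage: a violated constraint, or a loop of the `d`-cells -/
def alarm (y : ℕ → Bool) : Prop :=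
  (∃ η c, H.nev η c ∧ ¬ H.deadY η ∧ ∃ τ, H.phi c [] τ ∧ ∃ m < τ.length, τ.getD m false ≠ y m) ∨
  ∃ η δ, H.loopD η δ

/-- the complete label of the top stage for the input `y` -/
def clab (P : LPr) (rl : Set ℕ → ℕ → ℕ → Prop) (nL : Set ℕ) (y : ℕ → Bool) : Set ℕ :=
  H.nlab P rl nL ∪ {m | (∃ n, m = Nat.pair 0 (2 * n + 1) ∧ H.nY P y n) ∨
    (m = Nat.pair 9 0 ∧ H.alarm y)}

end Hs

end Pool.Agent.Helper25.EV
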