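import Pool.Agent.Helper25.EV.Hist

/-!
# The constructible hierarchy inside the labels (chapter LL): definitions

The elements of `L_β` are named by pairs `(γ, i)`, where `γ < β` and `i` is a valid index at the stage
`γ`; the pair names an element of `L_{γ+1}` which is not in `L_γ`.  An index is (the code of) a formula
with a list of parameters.  Tags: 6 (membership), 7 (valid indices), 8 (natural numbers in the named
set).
-/

set_option autoImplicit false

namespace Pool.Agent.Helper25.EV

open Encodable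

universe u

/-- the formula with the code `n` -/
def fdec (n : ℕ) : Fml :=
  if (Nat.unpair n).1 = 0 then
    Fml.mem (Nat.unpair (Nat.unpair n).2).1 (Nat.unpair (Nat.unpair n).2).2
  else if (Nat.unpair n).1 = 1 then
    Fml.eq (Nat.unpair (Nat.unpair n).2).1 (Nat.unpair (Nat.unpair n).2).2
  else if _h2 : (Nat.unpair n).1 = 2 then Fml.neg (fdec (Nat.unpair n).2)
  else if _h3 : (Nat.unpair n).1 = 3 then
    Fml.and (fdec (Nat.unpair (Nat.unpair n).2).1) (fdec (Nat.unpair (Nat.unpair n).2).2)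
  else Fml.ex (Nat.unpair (Nat.unpair n).2).1 (fdec (Nat.unpair (Nat.unpair n).2).2)
termination_by n
decreasing_by
  all_goals
    have h := Nat.add_le_pair (Nat.unpair n).1 (Nat.unpair n).2
    rw [Nat.pair_unpair] at h
    have h' := Nat.unpair_left_le (Nat.unpair n).2
    have h'' := Nat.unpair_right_le (Nat.unpair n).2
    omega

namespace Hs

variable {A : Type u} (H : Hs A)

/-- `a` is a name -/
def isN (a : A × ℕ) : Prop := H.D a.1 ∧ Nat.pair 7 a.2 ∈ H.lab a.1

/-- membership between names -/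
def memN (b a : A × ℕ) : Prop :=
  H.isN b ∧ H.isN a ∧ H.lt b.1 a.1 ∧
    ∃ k, H.num a.1 b.1 k ∧ Nat.pair 6 (encode (a.2, k, b.2)) ∈ H.lab a.1

/-- truth in the structure of all names; unassigned variables have the value `none` -/
def satN : Fml → (ℕ → Option (A × ℕ)) → Prop
  | .mem i j, s => ∃ a b, s i = some a ∧ s j = some b ∧ H.memN a b
  | .eq i j, s => s i = s j
  | .neg φ, s => ¬ satN φ s
  | .and φ ψ, s => satN φ s ∧ satN ψ s
  | .ex i φ, s => ∃ a, H.isN a ∧ satN φ (Function.update s i (some a))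

/-- the assignment `s` is given by the list `p` of parameters (a parameter is a number of a stage and
an index) -/
def asg (p : List (ℕ × ℕ)) (s : ℕ → Option (A × ℕ)) : Prop :=
  ∀ j a, s j = some a ↔ H.isN a ∧ ∃ k, H.nD a.1 k ∧ p[j]? = some (k, a.2)

/-- the index `i` (a code of a formula and a list of parameters) is defined at the top stage, with the
assignment `s` -/
def idx (i : ℕ) (φ : Fml) (s : ℕ → Option (A × ℕ)) : Prop :=
  ∃ (n : ℕ) (p : List (ℕ × ℕ)), i = encode (n, p) ∧ φ = fdec n ∧ H.asg p s ∧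
    ∀ j ∈ φ.fv, j ≠ 0 → s j ≠ none

/-- `a` is in the set with the index `i` -/
def inI (i : ℕ) (a : A × ℕ) : Prop :=
  H.isN a ∧ ∃ φ s, H.idx i φ s ∧ H.satN φ (Function.update s 0 (some a))

/-- the index `i` is valid at the top stage: it defines a set which has no name and no smaller index -/
def valI (i : ℕ) : Prop :=
  (∃ φ s, H.idx i φ s) ∧
  (∀ b, H.isN b → ¬ ∀ a, H.isN a → (H.inI i a ↔ H.memN a b)) ∧
  ∀ i' < i, (∃ φ s, H.idx i' φ s) → ¬ ∀ a, H.isN a → (H.inI i a ↔ H.inI i' a)

/-- `a` names the natural number `n` -/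
def vnN : ℕ → A × ℕ → Prop
  | 0, a => H.isN a ∧ ∀ b, ¬ H.memN b a
  | n + 1, a => H.isN a ∧ ∃ b, vnN n b ∧ ∀ c, H.isN c → (H.memN c a ↔ c = b ∨ H.memN c b)

/-- the part of the label of the top stage for the constructible hierarchy -/
def newL : Set ℕ :=
  {m | (∃ i, m = Nat.pair 7 i ∧ H.valI i) ∨
    (∃ i γ k i', m = Nat.pair 6 (encode (i, k, i')) ∧ H.valI i ∧ H.inI i (γ, i') ∧ H.nD γ k) ∨
    (∃ i n, m = Nat.pair 8 (encode (i, n)) ∧ H.valI i ∧ ∃ a, H.inI i a ∧ H.vnN n a)}

end Hs

/-- the `j`-th real which is listed in the label `L` -/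
def rlL (L : Set ℕ) (j n : ℕ) : Prop := Nat.pair 8 (encode (j, n)) ∈ L

end Pool.Agent.Helper25.EV
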