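import Pool.Agent.Helper25.EV.Defs

/-!
# Macro programs: the interface between the chapters MP (compiler), RT and AR
-/

set_option autoImplicit false

namespace Pool.Agent.Helper25.EV

open Ordinal

/-- arithmetical predicates `P X n` of a set `X` of natural numbers and a number `n` -/
inductive ArN : (Set ℕ → ℕ → Prop) → Prop
  | prim (f : ℕ → Bool) (hf : Primrec f) : ArN fun _ n => f n = true
  | mem (f : ℕ → ℕ) (hf : Primrec f) : ArN fun X n => f n ∈ X
  | neg {P : Set ℕ → ℕ → Prop} (hP : ArN P) : ArN fun X n => ¬ P X n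
  | and {P Q : Set ℕ → ℕ → Prop} (hP : ArN P) (hQ : ArN Q) : ArN fun X n => P X n ∧ Q X n
  | ex {P : Set ℕ → ℕ → Prop} (hP : ArN P) : ArN fun X n => ∃ m, P X (Nat.pair n m)

/-- arithmetical operators on sets of natural numbers -/
def ArOp (F : Set ℕ → Set ℕ) : Prop := ArN fun X n => n ∈ F X

/-- arithmetical predicates of a set and an element of a type of finite objects -/
def Ar {α : Type} [Primcodable α] (P : Set ℕ → α → Prop) : Prop :=
  ∃ Q : Set ℕ → ℕ → Prop, ArN Q ∧ ∀ X a, P X a ↔ Q X (Encodable.encode a)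

/-- the stages of the inflationary iteration of `G`, starting with `X`:
`X_0 = X`, `X_{α+1} = X_α ∪ G (X_α)`, unions at limits -/
noncomputable def clS (G : Set ℕ → Set ℕ) (X : Set ℕ) : Ordinal.{0} → Set ℕ :=
  fun α => Ordinal.limitRecOn α X (fun _ Y => Y ∪ G Y) fun l _ f =>
    {n | ∃ (β : Ordinal.{0}) (h : β < l), n ∈ f β h}

/-- the inflationary closure of `X` under `G` -/
def clos (G : Set ℕ → Set ℕ) (X : Set ℕ) : Set ℕ := {n | ∃ α, n ∈ clS G X α}

/-- instructions of macro programs: they change the state, a set of natural numbers -/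
inductive Instr : Type
  | ar (F : Set ℕ → Set ℕ) : Instr
  | cl (G : Set ℕ → Set ℕ) : Instr

/-- the operators which occur are arithmetical -/
def Instr.ok : Instr → Prop
  | .ar F => ArOp F
  | .cl G => ArOp G

/-- execution of an instruction -/
def Instr.exec : Instr → Set ℕ → Set ℕ
  | .ar F, X => F X
  | .cl G, X => clos G X

/-- execution of a list of instructions, from the left to the right -/
def execs (L : List Instr) (X : Set ℕ) : Set ℕ := L.foldl (fun Y I => I.exec Y) X

/-- the set of a real -/
def setOf' (y : Real2) : Set ℕ := {n | y n = true}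

/-- a macro program -/
structure Macro where
  init : List Instr
  main : List Instr
  lim : List Instr

def Macro.ok (M : Macro) : Prop :=
  (∀ I ∈ M.init, I.ok) ∧ (∀ I ∈ M.main, I.ok) ∧ ∀ I ∈ M.lim, I.ok

/-- the run of a macro program on the input `y` -/
noncomputable def mrun (M : Macro) (y : Real2) : Ordinal.{0} → Set ℕ :=
  fun α => Ordinal.limitRecOn α (execs M.init (setOf' y)) (fun _ X => execs M.main X) fun l _ f =>
    execs M.lim {n | ∀ β < l, ∃ (γ : Ordinal.{0}) (hg : γ < l), β ≤ γ ∧ n ∈ f γ hg}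

/-- the statement of chapter MP for one macro program -/
def Compiled (M : Macro) (p : Prog) : Prop :=
  ∀ y : Real2,
    ((∀ t, 0 ∉ mrun M y t) →
      ∃ α, ∀ β, α ≤ β → (run p y β).st ≠ none ∧ (run p y β).tout 0 = true) ∧
    (∀ t, 0 ∈ mrun M y t → (∀ s < t, 0 ∉ mrun M y s) →
      ∃ α, t ≤ α ∧ (run p y α).st = none ∧ (∀ β < α, (run p y β).st ≠ none) ∧
        (run p y α).tout 0 = false)

end Pool.Agent.Helper25.EV
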