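import Pool.Agent.Helper25.EV.Fire
import Pool.Agent.Helper88.RT.Asm

/-!
# Chapter RT: main theorem
-/

set_option autoImplicit false

namespace Pool.Agent.Helper25.EV

/-- CHAPTER RT. -/
theorem RT (nl : List Instr) (lab : Real2 → Ordinal.{0} → Set ℕ) (h : Computes nl lab)
    (hclock : ∀ y β, Pre (fun γ => fires (lab y γ)) β → Nat.pair 0 0 ∈ lab y β) :
    ∃ M : Macro, Tracks M lab := Pool.Agent.Helper88.RT.RT nl lab h hclock

end Pool.Agent.Helper25.EV
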